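import Mathlib

/-!
# Regular powers in π-regular rings

In a π-regular ring every element (in particular every regular element `a`) has arbitrarily high
regular powers: apply π-regularity to `a ^ m`.
-/

set_option autoImplicit false

namespace Pool.Agent.Results.MP_59f064_al.HigherPowersH60

/-- `a` is von Neumann regular: `a ∈ a R a`. -/
def IsRegularElt {R : Type*} [Ring R] (a : R) : Prop := ∃ x : R, a = a * x * a

/-- `R` is π-regular: every element has a regular power `a ^ n` with `n ≥ 1`. -/
def IsPiRegular (R : Type*) [Ring R] : Prop := ∀ a : R, ∃ n : ℕ, 1 ≤ n ∧ IsRegularElt (a ^ n)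

/-- The negated form of the question: there is no π-regular ring with a regular element `a` such
that `a ^ k` is not regular for all `k ≥ 2`. More precisely every element of a π-regular ring has
regular powers with arbitrarily large exponent. -/
theorem result.{u} :
    (¬ ∃ (R : Type u) (_ : Ring R) (a : R), IsPiRegular R ∧ IsRegularElt a ∧
      ∀ k : ℕ, 2 ≤ k → ¬ IsRegularElt (a ^ k)) ∧
    ∀ (R : Type u) [Ring R], IsPiRegular R → ∀ (a : R) (N : ℕ), ∃ k : ℕ, N ≤ k ∧ 2 ≤ k ∧
      IsRegularElt (a ^ k) := by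
  have key : ∀ (R : Type u) [Ring R], IsPiRegular R → ∀ (a : R) (N : ℕ), ∃ k : ℕ, N ≤ k ∧ 2 ≤ k ∧
      IsRegularElt (a ^ k) := by
    intro R _ hR a N
    obtain ⟨n, hn, h⟩ := hR (a ^ (N + 2))
    refine ⟨(N + 2) * n, ?_, ?_, by rwa [pow_mul]⟩
    · nlinarith
    · nlinarith
  refine ⟨?_, key⟩
  rintro ⟨R, _, a, hR, _, hk⟩
  obtain ⟨k, _, h2, h⟩ := key R hR a 0
  exact hk k h2 h

end Pool.Agent.Results.MP_59f064_al.HigherPowersH60
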